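import Pool.Agent.H48.ER2.All
import Pool.Agent.H29.ERO.All

/-!
# MP_816b90_co: the class, even pairs and prisms in the form of the problem
-/

set_option autoImplicit false

open Pool.Agent.H48.ER Pool.Agent.H52.ER2 Pool.Agent.H48.ER2 Pool.Agent.H29.ERO

namespace Pool.Agent.H52.CV

/-- the cycle of length `n + 2` consists of a chordless path and of one more vertex -/
theorem cyc_ring (n : ℕ) (hn : 1 ≤ n) : ∃ (u v c : Fin (n + 2)) (R : Set (Fin (n + 2))),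
    IP (SimpleGraph.cycleGraph (n + 2)) n u v R ∧ c ∉ R ∧
    (SimpleGraph.cycleGraph (n + 2)).Adj c u ∧ (SimpleGraph.cycleGraph (n + 2)).Adj c v ∧
    ∀ w ∈ R, (SimpleGraph.cycleGraph (n + 2)).Adj c w → w = u ∨ w = v := by
  have hne : ∀ i j : Fin (n + 2), i ≠ j ↔ i.val ≠ j.val := fun i j => by
    rw [Ne, Fin.ext_iff]
  have hval : ∀ t, t ≤ n → t % (n + 2) = t := fun t ht => Nat.mod_eq_of_lt (by omega)
  refine ⟨⟨0, by omega⟩, ⟨n, by omega⟩, ⟨n + 1, by omega⟩, {v | v.val ≤ n},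
    ⟨fun t => ⟨t % (n + 2), Nat.mod_lt _ (by omega)⟩, ?_, ?_, ?_, ?_, ?_⟩, ?_, ?_, ?_, ?_⟩
  · exact Fin.ext (Nat.zero_mod _)
  · exact Fin.ext (hval n le_rfl)
  · intro i j hi hj e
    have h1 := congrArg Fin.val e
    simp only [hval i hi, hval j hj] at h1
    exact h1
  · intro i j hi hj
    rw [Pool.Agent.H81.ER.cyc_adj, hne]
    simp only [hval i hi, hval j hj]
    omega
  · ext v
    constructor
    · intro hv
      exact ⟨v.val, hv, Fin.ext (hval _ hv)⟩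
    · rintro ⟨i, hi, rfl⟩
      change i % (n + 2) ≤ n
      rw [hval i hi]
      exact hi
  · intro h
    have h1 : n + 1 ≤ n := h
    omega
  · rw [Pool.Agent.H81.ER.cyc_adj, hne]
    refine ⟨Or.inr (Or.inr (Or.inr ⟨rfl, rfl⟩)), ?_⟩
    change n + 1 ≠ 0
    omega
  · rw [Pool.Agent.H81.ER.cyc_adj, hne]
    refine ⟨Or.inr (Or.inl rfl), ?_⟩
    change n + 1 ≠ n
    omega
  · intro w hw h
    have hw' : w.val ≤ n := hw
    rw [Pool.Agent.H81.ER.cyc_adj, hne] at h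
    simp only at h
    rcases Nat.eq_zero_or_pos w.val with h0 | h0
    · exact Or.inl (Fin.ext h0)
    · refine Or.inr (Fin.ext ?_)
      simp only
      omega

/-- the class in the form of the problem -/
theorem plain_of_cls {m : ℕ} (G : SimpleGraph (Fin m)) (hG : Cls G) :
    NoOddHole G ∧ NoAntihole G ∧ NoOddPrism G := by
  refine ⟨?_, ?_, pf_PRC c_WLK m G hG.nop⟩
  · rintro ⟨k, hk, hodd, ⟨e⟩⟩
    have he : G.comap e.toEmbedding = SimpleGraph.cycleGraph k := by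
      ext a b
      exact e.map_rel_iff
    have h1 := c_INA (Fin m) (Fin k) G e.toEmbedding hG
    rw [he] at h1
    obtain ⟨n, rfl⟩ : ∃ n, k = n + 2 := ⟨k - 2, by omega⟩
    obtain ⟨u, v, c, R, hR, hc, hu, hv, hw⟩ := cyc_ring n (by omega)
    have := h1.noh n u v c R hR (by omega) hc hu hv hw
    rw [Nat.even_iff] at this
    omega
  · rintro ⟨k, hk, ⟨e⟩⟩
    have he : G.comap e.toEmbedding = (SimpleGraph.cycleGraph k)ᶜ := by
      ext a b
      exact e.map_rel_iff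
    have h1 := c_INA (Fin m) (Fin k) G e.toEmbedding hG
    rw [he] at h1
    obtain ⟨n, rfl⟩ : ∃ n, k = n + 2 := ⟨k - 2, by omega⟩
    obtain ⟨u, v, c, R, hR, hc, hu, hv, hw⟩ := cyc_ring n (by omega)
    have h2 := h1.nah n u v c R
    rw [compl_compl] at h2
    exact h2 hR (by omega) hc hu hv hw

/-- the class from the form of the problem -/
theorem cls_of_plain {m : ℕ} (G : SimpleGraph (Fin m)) (h1 : NoOddHole G) (h2 : NoAntihole G)
    (h3 : NoOddPrism G) : Cls G :=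
  ⟨c_HNO m G h1, c_HNP m G h3, c_HNA m G h2⟩

/-- the contracted graph in the form of the problem -/
theorem cls_contr {k : ℕ} (H : SimpleGraph (Fin (k + 1))) (x y : Fin (k + 1))
    (φ : Fin (k + 1) → Fin k) (hxy : x ≠ y) (hφ : Function.Surjective φ)
    (hφe : ∀ u v : Fin (k + 1), φ u = φ v ↔ (u = v ∨ (u = x ∧ v = y) ∨ (u = y ∧ v = x)))
    (hc : Cls (ctr H x y)) :
    Cls (SimpleGraph.fromRel (fun a b : Fin k => ∃ u v : Fin (k + 1), φ u = a ∧ φ v = b ∧
      H.Adj u v)) := by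
  obtain ⟨ψ, hψ, -, he⟩ := pf_FRE k H x y φ hxy hφ hφe
  rw [he]
  exact c_INA _ _ (ctr H x y) ⟨ψ, hψ⟩ hc

/-- an even pair in the form of the problem -/
theorem plain_evp {m : ℕ} (G : SimpleGraph (Fin m)) (x y : Fin m) (h : EvP G x y) :
    x ≠ y ∧ ¬ G.Adj x y ∧ ∀ p : G.Walk x y, p.IsPath →
      (∀ i j : ℕ, i + 1 < j → j ≤ p.length → ¬ G.Adj (p.getVert i) (p.getVert j)) →
      p.length % 2 = 0 := by
  refine ⟨h.1, h.2.1, fun p hp hc => ?_⟩
  exact Nat.even_iff.1 (h.2.2 _ _ ((c_WLK (Fin m) G x y).1 p hp hc))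

/-- three disjoint paths with at least one edge, joined by two triangles and without other edges
between them -/
def IsPrism {n : ℕ} (G : SimpleGraph (Fin n)) {a1 a2 a3 b1 b2 b3 : Fin n} (p1 : G.Walk a1 b1)
    (p2 : G.Walk a2 b2) (p3 : G.Walk a3 b3) : Prop :=
  p1.IsPath ∧ p2.IsPath ∧ p3.IsPath ∧
  1 ≤ p1.length ∧ 1 ≤ p2.length ∧ 1 ≤ p3.length ∧
  (∀ w : Fin n, w ∈ p1.support → w ∉ p2.support) ∧
  (∀ w : Fin n, w ∈ p1.support → w ∉ p3.support) ∧
  (∀ w : Fin n, w ∈ p2.support → w ∉ p3.support) ∧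
  ∀ u v : Fin n,
    (u ∈ p1.support ∨ u ∈ p2.support ∨ u ∈ p3.support) →
    (v ∈ p1.support ∨ v ∈ p2.support ∨ v ∈ p3.support) →
    (G.Adj u v ↔
      (p1.toSubgraph.Adj u v ∨ p2.toSubgraph.Adj u v ∨ p3.toSubgraph.Adj u v ∨
       (u ≠ v ∧ (u = a1 ∨ u = a2 ∨ u = a3) ∧ (v = a1 ∨ v = a2 ∨ v = a3)) ∨
       (u ≠ v ∧ (u = b1 ∨ u = b2 ∨ u = b3) ∧ (v = b1 ∨ v = b2 ∨ v = b3))))

/-- prisms in the form of the problem -/
theorem prism_walks {m : ℕ} (G : SimpleGraph (Fin m)) (a b : Fin 3 → Fin m) (n : Fin 3 → ℕ)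
    (P : Fin 3 → Set (Fin m)) (hP : Prism G a b n P) :
    ∃ (p0 : G.Walk (a 0) (b 0)) (p1 : G.Walk (a 1) (b 1)) (p2 : G.Walk (a 2) (b 2)),
      IsPrism G p0 p1 p2 ∧ ∀ v, (v ∈ p0.support ∨ v ∈ p1.support ∨ v ∈ p2.support) → v ∈ ver P := by
  have hw : ∀ i, ∃ p : G.Walk (a i) (b i), p.IsPath ∧ p.length = n i ∧
      (∀ v, v ∈ p.support ↔ v ∈ P i) ∧
      ∀ u ∈ P i, ∀ v ∈ P i, p.toSubgraph.Adj u v ↔ G.Adj u v := by
    intro i
    obtain ⟨p, h1, h2, h3, -, h4⟩ := (c_WLK (Fin m) G (a i) (b i)).2 (n i) (P i) (hP.ip i)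
    exact ⟨p, h1, h2, h3, h4⟩
  choose p hp1 hp2 hp3 hp4 using hw
  have ha : ∀ i, a i ∈ P i := fun i => hP.a_mem i
  have hb : ∀ i, b i ∈ P i := fun i => hP.b_mem i
  have hdj : ∀ i j, i ≠ j → ∀ w, w ∈ P i → w ∉ P j := fun i j hij w h1 h2 =>
    Set.disjoint_left.1 (hP.dis i j hij) h1 h2
  have hin : ∀ i j u v, (p i).toSubgraph.Adj u v → u ∈ P j → i = j := by
    intro i j u v h1 h2
    by_contra hij
    exact hdj i j hij u ((hp3 i u).1 (Pool.Agent.H55.ER.sub_HNP _ h1).1) h2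
  have hin' : ∀ i j u v, (p i).toSubgraph.Adj u v → v ∈ P j → i = j := by
    intro i j u v h1 h2
    by_contra hij
    exact hdj i j hij v ((hp3 i v).1 (Pool.Agent.H55.ER.sub_HNP _ h1).2) h2
  have hanj : ∀ i j u, u = a i → u ∈ P j → i = j := by
    intro i j u h1 h2
    by_contra hij
    exact hdj i j hij u (h1 ▸ ha i) h2
  have hbnj : ∀ i j u, u = b i → u ∈ P j → i = j := by
    intro i j u h1 h2
    by_contra hij
    exact hdj i j hij u (h1 ▸ hb i) h2
  have key : ∀ i j : Fin 3, ∀ u ∈ P i, ∀ v ∈ P j, G.Adj u v ↔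
      ((∃ l, (p l).toSubgraph.Adj u v) ∨ (u ≠ v ∧ (∃ l, u = a l) ∧ ∃ l, v = a l) ∨
        (u ≠ v ∧ (∃ l, u = b l) ∧ ∃ l, v = b l)) := by
    intro i j u hu v hv
    by_cases hij : i = j
    · subst hij
      constructor
      · intro h
        exact Or.inl ⟨i, (hp4 i u hu v hv).2 h⟩
      · rintro (⟨l, h⟩ | ⟨hne, ⟨l, hl⟩, l', hl'⟩ | ⟨hne, ⟨l, hl⟩, l', hl'⟩)
        · exact h.adj_sub
        · exfalso
          have e1 := hanj l i u hl hu
          have e2 := hanj l' i v hl' hv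
          apply hne
          rw [hl, hl', e1, e2]
        · exfalso
          have e1 := hbnj l i u hl hu
          have e2 := hbnj l' i v hl' hv
          apply hne
          rw [hl, hl', e1, e2]
    · rw [hP.adj i j hij u hu v hv]
      have hne : u ≠ v := by
        rintro rfl
        exact hdj i j hij u hu hv
      constructor
      · rintro (⟨h1, h2⟩ | ⟨h1, h2⟩)
        · exact Or.inr (Or.inl ⟨hne, ⟨i, h1⟩, j, h2⟩)
        · exact Or.inr (Or.inr ⟨hne, ⟨i, h1⟩, j, h2⟩)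
      · rintro (⟨l, h⟩ | ⟨-, ⟨l, hl⟩, l', hl'⟩ | ⟨-, ⟨l, hl⟩, l', hl'⟩)
        · exfalso
          exact hij ((hin l i u v h hu).symm.trans (hin' l j u v h hv))
        · have e1 := hanj l i u hl hu
          have e2 := hanj l' j v hl' hv
          rw [e1] at hl
          rw [e2] at hl'
          exact Or.inl ⟨hl, hl'⟩
        · have e1 := hbnj l i u hl hu
          have e2 := hbnj l' j v hl' hv
          rw [e1] at hl
          rw [e2] at hl'
          exact Or.inr ⟨hl, hl'⟩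
  have hmod : ∀ i, 1 ≤ (p i).length := by
    intro i
    rw [hp2]
    exact hP.pos i
  have hsd : ∀ i j, i ≠ j → ∀ w, w ∈ (p i).support → w ∉ (p j).support := by
    intro i j hij w h1 h2
    exact hdj i j hij w ((hp3 i w).1 h1) ((hp3 j w).1 h2)
  refine ⟨p 0, p 1, p 2, ⟨hp1 0, hp1 1, hp1 2, hmod 0, hmod 1, hmod 2,
    hsd 0 1 (by decide), hsd 0 2 (by decide), hsd 1 2 (by decide), ?_⟩, ?_⟩
  · intro u v hu hv
    have hu' : ∃ i, u ∈ P i := by
      rcases hu with h | h | h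
      · exact ⟨0, (hp3 0 u).1 h⟩
      · exact ⟨1, (hp3 1 u).1 h⟩
      · exact ⟨2, (hp3 2 u).1 h⟩
    have hv' : ∃ i, v ∈ P i := by
      rcases hv with h | h | h
      · exact ⟨0, (hp3 0 v).1 h⟩
      · exact ⟨1, (hp3 1 v).1 h⟩
      · exact ⟨2, (hp3 2 v).1 h⟩
    obtain ⟨i, hi⟩ := hu'
    obtain ⟨j, hj⟩ := hv'
    rw [key i j u hi v hj]
    have e3 : ∀ Q : Fin 3 → Prop, (∃ l, Q l) ↔ (Q 0 ∨ Q 1 ∨ Q 2) := by
      intro Q
      constructor
      · rintro ⟨l, hl⟩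
        fin_cases l
        · exact Or.inl hl
        · exact Or.inr (Or.inl hl)
        · exact Or.inr (Or.inr hl)
      · rintro (h | h | h)
        · exact ⟨0, h⟩
        · exact ⟨1, h⟩
        · exact ⟨2, h⟩
    rw [e3, e3, e3, e3, e3]
    constructor
    · rintro ((h | h | h) | h | h)
      · exact Or.inl h
      · exact Or.inr (Or.inl h)
      · exact Or.inr (Or.inr (Or.inl h))
      · exact Or.inr (Or.inr (Or.inr (Or.inl h)))
      · exact Or.inr (Or.inr (Or.inr (Or.inr h)))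
    · rintro (h | h | h | h | h)
      · exact Or.inl (Or.inl h)
      · exact Or.inl (Or.inr (Or.inl h))
      · exact Or.inl (Or.inr (Or.inr h))
      · exact Or.inr (Or.inl h)
      · exact Or.inr (Or.inr h)
  · rintro v (h | h | h)
    · exact ⟨0, (hp3 0 v).1 h⟩
    · exact ⟨1, (hp3 1 v).1 h⟩
    · exact ⟨2, (hp3 2 v).1 h⟩

end Pool.Agent.H52.CV
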