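import Pool.Agent.H52.CV.Conv
import Pool.Agent.H20.ER2.VF

/-!
# MP_816b90_co: the clean vertex theorem for anticonnected sets
-/

set_option autoImplicit false

open Pool.Agent.H48.ER Pool.Agent.H52.ER2 Pool.Agent.H48.ER2

namespace Pool.Agent.H52.CV

/-- the vertices of `T` are replaced by its vertex `t`, whose neighbours are the common neighbours
of `T`; the other vertices of `T` become isolated -/
def shr {V : Type} (G : SimpleGraph V) (T : Set V) (t : V) : SimpleGraph V where
  Adj a b := (a ∈ T → a = t) ∧ (b ∈ T → b = t) ∧ G.Adj a b ∧ (a = t → ∀ s ∈ T, G.Adj s b) ∧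
    (b = t → ∀ s ∈ T, G.Adj s a)
  symm := ⟨fun _ _ h => ⟨h.2.1, h.1, h.2.2.1.symm, h.2.2.2.2, h.2.2.2.1⟩⟩
  loopless := ⟨fun _ h => G.loopless.irrefl _ h.2.2.1⟩

theorem shr_one {V : Type} (G : SimpleGraph V) (t : V) : shr G {t} t = G := by
  ext a b
  constructor
  · intro h
    exact h.2.2.1
  · intro h
    refine ⟨fun h => h, fun h => h, h, ?_, ?_⟩
    · rintro rfl s rfl
      exact h
    · rintro rfl s rfl
      exact h.symm

theorem shr_adj {V : Type} {G : SimpleGraph V} {T : Set V} {t x : V} (ht : t ∈ T) :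
    (shr G T t).Adj t x ↔ ∀ s ∈ T, G.Adj s x := by
  constructor
  · intro h
    exact h.2.2.2.1 rfl
  · intro h
    refine ⟨fun _ => rfl, fun hx => (G.loopless.irrefl _ (h x hx)).elim, h t ht, fun _ => h, ?_⟩
    rintro rfl
    exact (G.loopless.irrefl _ (h x ht)).elim

theorem shr_insert {V : Type} (G : SimpleGraph V) (S : Set V) (t u s0 : V) (ht : t ∈ S)
    (hu : u ∉ S) (hs0 : s0 ∈ S) (hn : ¬ G.Adj s0 u) :
    mt (shr G S t) t u = shr G (insert u S) t := by
  have hut : u ≠ t := fun h => hu (h ▸ ht)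
  ext a b
  constructor
  · rintro ⟨h1, h2, h3, h4, h5⟩
    refine ⟨?_, ?_, h3.2.2.1, ?_, ?_⟩
    · rintro (h | h)
      · exact (h1 h).elim
      · exact h3.1 h
    · rintro (h | h)
      · exact (h2 h).elim
      · exact h3.2.1 h
    · intro h s hs
      rcases hs with rfl | hs
      · exact (h4 h).2.2.1
      · exact h3.2.2.2.1 h s hs
    · intro h s hs
      rcases hs with rfl | hs
      · exact (h5 h).2.2.1
      · exact h3.2.2.2.2 h s hs
  · rintro ⟨h1, h2, h3, h4, h5⟩
    have hau : a ≠ u := by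
      rintro rfl
      exact hut (h1 (Set.mem_insert _ _))
    have hbu : b ≠ u := by
      rintro rfl
      exact hut (h2 (Set.mem_insert _ _))
    have hab : (shr G S t).Adj a b :=
      ⟨fun h => h1 (Set.mem_insert_of_mem _ h), fun h => h2 (Set.mem_insert_of_mem _ h), h3,
        fun h s hs => h4 h s (Set.mem_insert_of_mem _ hs),
        fun h s hs => h5 h s (Set.mem_insert_of_mem _ hs)⟩
    refine ⟨hau, hbu, hab, ?_, ?_⟩
    · intro h
      have hb : b ≠ t := by
        rintro rfl
        rw [h] at h3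
        exact G.loopless.irrefl _ h3
      exact ⟨fun hS => (hu hS).elim, fun hS => h2 (Set.mem_insert_of_mem _ hS),
        h4 h u (Set.mem_insert _ _), fun h' => (hut h').elim, fun h' => (hb h').elim⟩
    · intro h
      have hb : a ≠ t := by
        rintro rfl
        rw [h] at h3
        exact G.loopless.irrefl _ h3
      exact ⟨fun hS => (hu hS).elim, fun hS => h1 (Set.mem_insert_of_mem _ hS),
        h5 h u (Set.mem_insert _ _), fun h' => (hut h').elim, fun h' => (hb h').elim⟩

/-- a crossing pair of nonadjacent vertices -/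
theorem cross {V : Type} (G : SimpleGraph V) (T S : Set V) (hT : (Gᶜ.induce T).Connected) (t : V)
    (ht : t ∈ S) (hS : S ⊆ T) (hne : S ≠ T) : ∃ s ∈ S, ∃ u ∈ T, u ∉ S ∧ ¬ G.Adj s u := by
  obtain ⟨u, huT, huS⟩ : ∃ u, u ∈ T ∧ u ∉ S := by
    by_contra h
    push Not at h
    exact hne (Set.Subset.antisymm hS h)
  obtain ⟨w⟩ := hT.preconnected ⟨t, hS ht⟩ ⟨u, huT⟩
  obtain ⟨d, hd, h1, h2⟩ := w.exists_boundary_dart {z | z.1 ∈ S} ht huS
  refine ⟨d.fst.1, h1, d.snd.1, d.snd.2, h2, ?_⟩
  intro h
  have h3 := d.adj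
  rw [SimpleGraph.induce_adj, SimpleGraph.compl_adj] at h3
  exact h3.2 h

/-- the class and good pairs under the replacement -/
theorem shr_main {V : Type} [Finite V] (G : SimpleGraph V) (hG : Cls G) (T : Set V) (t : V)
    (ht : t ∈ T) (hT : (Gᶜ.induce T).Connected) : Cls (shr G T t) ∧
    ∀ x y, (∀ s ∈ T, G.Adj s x) → (∀ s ∈ T, G.Adj s y) → Gd (shr G T t) x y → Gd G x y := by
  have key : ∀ (N : ℕ) (S : Set V), (T \ S).ncard ≤ N → t ∈ S → S ⊆ T → Cls (shr G S t) →
      (∀ x y, (∀ s ∈ T, G.Adj s x) → (∀ s ∈ T, G.Adj s y) → Gd (shr G S t) x y → Gd G x y) →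
      Cls (shr G T t) ∧
    ∀ x y, (∀ s ∈ T, G.Adj s x) → (∀ s ∈ T, G.Adj s y) → Gd (shr G T t) x y → Gd G x y := by
    intro N
    induction N with
    | zero =>
      intro S hN htS hST h1 h2
      have h0 : T \ S = ∅ := (Set.ncard_eq_zero (Set.toFinite _)).mp (by omega)
      have : S = T := Set.Subset.antisymm hST (Set.sdiff_eq_empty.mp h0)
      subst this
      exact ⟨h1, h2⟩
    | succ N ih =>
      intro S hN htS hST h1 h2
      by_cases hne : S = T
      · subst hne
        exact ⟨h1, h2⟩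
      · obtain ⟨s0, hs0, u, huT, huS, hn⟩ := cross G T S hT t htS hST hne
        have hut : t ≠ u := fun h => huS (h ▸ htS)
        have hna : ¬ (shr G S t).Adj t u := by
          rw [shr_adj htS]
          intro h
          exact hn (h s0 hs0)
        have heq := shr_insert G S t u s0 htS huS hs0 hn
        refine ih (insert u S) ?_ (Set.mem_insert_of_mem _ htS)
          (Set.insert_subset huT hST) ?_ ?_
        · have hlt : (T \ insert u S).ncard < (T \ S).ncard := by
            apply Set.ncard_lt_ncard _ (Set.toFinite _)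
            refine ⟨fun w hw => ⟨hw.1, fun h => hw.2 (Set.mem_insert_of_mem _ h)⟩, fun hle => ?_⟩
            exact (hle ⟨huT, huS⟩).2 (Set.mem_insert _ _)
          omega
        · rw [← heq]
          exact Pool.Agent.H56.ER2.c_MEET V (shr G S t) t u h1 hut hna
        · intro x y hx hy hg
          rw [← heq] at hg
          have hx' : ∀ s ∈ S, G.Adj s x := fun s hs => hx s (hST hs)
          have hy' : ∀ s ∈ S, G.Adj s y := fun s hs => hy s (hST hs)
          have hxt : (shr G S t).Adj t x := (shr_adj htS).2 hx'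
          have hyt : (shr G S t).Adj t y := (shr_adj htS).2 hy'
          have hu : ∀ z, (∀ s ∈ S, G.Adj s z) → G.Adj u z → (shr G S t).Adj u z := by
            intro z hz huz
            refine ⟨fun h => (huS h).elim, fun h => (G.loopless.irrefl _ (hz z h)).elim, huz,
              fun h => (hut h.symm).elim, ?_⟩
            rintro rfl
            exact (G.loopless.irrefl _ (hz z htS)).elim
          exact h2 x y hx hy (c_LFM V (shr G S t) t u x y h1 hut.symm (fun h => hna h.symm) hxt hyt
            (hu x hx' (hx u huT)) (hu y hy' (hy u huT)) hg)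
  refine key _ {t} le_rfl rfl (Set.singleton_subset_iff.2 ht) ?_ ?_
  · rw [shr_one]
    exact hG
  · intro x y _ _ h
    rw [shr_one] at h
    exact h

/-- the theorem for an anticonnected set -/
theorem clean_set {V : Type} [Finite V] (G : SimpleGraph V) (hG : Cls G) (T : Set V) (t : V)
    (ht : t ∈ T) (hT : (Gᶜ.induce T).Connected) (hc : NCo (shr G T t) t)
    (hm : Tame (shr G T t) t) (p q : V) (hpq : p ≠ q) (hn : ¬ G.Adj p q)
    (hp : ∀ s ∈ T, G.Adj s p) (hq : ∀ s ∈ T, G.Adj s q) :
    ∃ x y, (∀ s ∈ T, G.Adj s x) ∧ (∀ s ∈ T, G.Adj s y) ∧ Gd G x y := by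
  obtain ⟨h1, h2⟩ := shr_main G hG T t ht hT
  obtain ⟨x, y, hx, hy, hg⟩ := Pool.Agent.H20.ER2.clean_vertex (shr G T t) t h1 hc hm (by
    intro h
    exact hn (h p ((shr_adj ht).2 hp) q ((shr_adj ht).2 hq) hpq).2.2.1)
  exact ⟨x, y, (shr_adj ht).1 hx, (shr_adj ht).1 hy,
    h2 x y ((shr_adj ht).1 hx) ((shr_adj ht).1 hy) hg⟩

end Pool.Agent.H52.CV
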